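import Pool.Agent.Helper2.NNP.Stm
import Pool.Agent.Erdos456.Mertens

/-!
# Part LOW of the project NNP (MP_a70bdc_nt): lower bound of the measure
-/

set_option autoImplicit false

open MeasureTheory Filter Topology Finset
open scoped Real

namespace Pool.Agent.Helper40W.NNP

open Pool.Agent.Helper2.NNP Pool.Agent.Erdos456.Mert

lemma sum_inv_lower : ∃ C : ℝ, 0 ≤ C ∧ ∀ M N : ℕ, 1 ≤ M → M ≤ N → 2 ≤ N →
    (Real.log N - Real.log M - C) / Real.log N ≤
      ∑ p ∈ (Finset.Ioc M N).filter Nat.Prime, (1 : ℝ) / p := by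
  obtain ⟨C, hC⟩ := mertens_log
  have hC0 : 0 ≤ C := (abs_nonneg _).trans (hC 1 le_rfl)
  refine ⟨2 * C, by positivity, fun M N hM hMN hN => ?_⟩
  have hsplit : ∑ p ∈ (Finset.Icc 1 N).filter Nat.Prime, Real.log p / p =
      ∑ p ∈ (Finset.Icc 1 M).filter Nat.Prime, Real.log p / p +
        ∑ p ∈ (Finset.Ioc M N).filter Nat.Prime, Real.log p / p := by
    rw [← Finset.sum_union]
    · congr 1
      ext p
      simp only [mem_filter, mem_Icc, mem_Ioc, mem_union]
      constructor
      · rintro ⟨⟨h1, h2⟩, h3⟩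
        by_cases h : p ≤ M
        · left; exact ⟨⟨h1, h⟩, h3⟩
        · right; exact ⟨⟨by omega, h2⟩, h3⟩
      · rintro (⟨⟨h1, h2⟩, h3⟩ | ⟨⟨h1, h2⟩, h3⟩)
        · exact ⟨⟨h1, by omega⟩, h3⟩
        · exact ⟨⟨by omega, h2⟩, h3⟩
    · rw [Finset.disjoint_left]
      intro p
      simp only [mem_filter, mem_Icc, mem_Ioc]
      omega
  have h1 := abs_le.1 (hC M hM)
  have h2 := abs_le.1 (hC N (hM.trans hMN))
  have hlN : 0 < Real.log N := Real.log_pos (by exact_mod_cast hN)
  rw [div_le_iff₀ hlN, Finset.sum_mul]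
  calc Real.log N - Real.log M - 2 * C
      ≤ ∑ p ∈ (Finset.Ioc M N).filter Nat.Prime, Real.log p / p := by linarith [h1.1, h1.2, h2.1, h2.2]
    _ ≤ _ := by
      apply Finset.sum_le_sum
      intro p hp
      simp only [mem_filter, mem_Ioc] at hp
      have hp0 : (0 : ℝ) < p := by exact_mod_cast hp.2.pos
      have : Real.log p ≤ Real.log N := Real.log_le_log hp0 (by exact_mod_cast hp.1.2)
      rw [div_mul_eq_mul_div, one_mul]
      gcongr

lemma meas_lower (s c : ℕ → ℝ) (A B : ℝ) (k : ℤ) (n : ℕ) (hs : 1 ≤ s n) (T : Finset ℕ)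
    (hT : ∀ p ∈ T, p.Prime ∧ Real.exp (Lg s c n A) ≤ (p : ℝ) - k ∧
      (p : ℝ) - k + 1 ≤ Real.exp (Lg s c n B) ∧ (p : ℝ) - k + 1 ≤ 2 * p) :
    1 / (2 * s n) * ∑ p ∈ T, (1 : ℝ) / p ≤ volume.real (EE s c k n ∩ Set.Icc A B) := by
  have hs0 : 0 < s n := by linarith
  set I : ℕ → Set ℝ := fun p => Set.Ico ((Real.log ((p : ℝ) - k) - c n) / s n)
    ((Real.log ((p : ℝ) - k + 1) - c n) / s n) with hI
  have hpos : ∀ p ∈ T, (0 : ℝ) < (p : ℝ) - k := fun p hp => (Real.exp_pos _).trans_le (hT p hp).2.1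
  have hmem : ∀ p ∈ T, ∀ x ∈ I p, ⌊fn s c n x⌋ = (p : ℤ) - k ∧ A ≤ x ∧ x ≤ B := by
    intro p hp x hx
    have h0 := hpos p hp
    obtain ⟨hprime, h1, h2, h3⟩ := hT p hp
    obtain ⟨hx1, hx2⟩ := hx
    rw [div_le_iff₀ hs0] at hx1
    rw [lt_div_iff₀ hs0] at hx2
    have hl : Real.log ((p : ℝ) - k) ≤ Lg s c n x := by unfold Lg; linarith
    have hu : Lg s c n x < Real.log ((p : ℝ) - k + 1) := by unfold Lg; linarith
    refine ⟨?_, ?_, ?_⟩
    · rw [Int.floor_eq_iff]
      push_cast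
      unfold fn
      constructor
      · calc (p : ℝ) - k = Real.exp (Real.log ((p : ℝ) - k)) := (Real.exp_log h0).symm
          _ ≤ _ := Real.exp_le_exp.2 hl
      · calc _ < Real.exp (Real.log ((p : ℝ) - k + 1)) := Real.exp_lt_exp.2 hu
          _ = (p : ℝ) - k + 1 := Real.exp_log (by linarith)
    · have : Lg s c n A ≤ Real.log ((p : ℝ) - k) := by
        rw [Real.le_log_iff_exp_le h0]; exact h1
      have h5 : Lg s c n A ≤ Lg s c n x := this.trans hl
      unfold Lg at h5
      have h6 : s n * A ≤ s n * x := by linarith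
      exact le_of_mul_le_mul_left h6 hs0
    · have : Real.log ((p : ℝ) - k + 1) ≤ Lg s c n B := by
        rw [Real.log_le_iff_le_exp (by linarith)]; exact h2
      have h5 : Lg s c n x ≤ Lg s c n B := (hu.trans_le this).le
      unfold Lg at h5
      have h6 : s n * x ≤ s n * B := by linarith
      exact le_of_mul_le_mul_left h6 hs0
  have hsub : (⋃ p ∈ T, I p) ⊆ EE s c k n ∩ Set.Icc A B := by
    intro x hx
    simp only [Set.mem_iUnion] at hx
    obtain ⟨p, hp, hx⟩ := hx
    obtain ⟨h1, h2, h3⟩ := hmem p hp x hx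
    refine ⟨?_, h2, h3⟩
    change (⌊fn s c n x⌋ + k).toNat.Prime
    rw [h1, sub_add_cancel, Int.toNat_natCast]
    exact (hT p hp).1
  have hdisj : (T : Set ℕ).PairwiseDisjoint I := by
    intro p hp q hq hpq
    rw [Function.onFun, Set.disjoint_left]
    intro x hx hx'
    have h1 := (hmem p hp x hx).1
    have h2 := (hmem q hq x hx').1
    apply hpq
    have : (p : ℤ) = q := by linarith
    exact_mod_cast this
  have hfin : volume (EE s c k n ∩ Set.Icc A B) ≠ ⊤ :=
    ((measure_mono Set.inter_subset_right).trans_lt (by simp [Real.volume_Icc])).ne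
  calc 1 / (2 * s n) * ∑ p ∈ T, (1 : ℝ) / p ≤ ∑ p ∈ T, volume.real (I p) := by
        rw [Finset.mul_sum]
        apply Finset.sum_le_sum
        intro p hp
        have h0 := hpos p hp
        obtain ⟨hprime, h1, h2, h3⟩ := hT p hp
        have hp0 : (0 : ℝ) < p := by exact_mod_cast hprime.pos
        have hlog : 1 / ((p : ℝ) - k + 1) ≤ Real.log ((p : ℝ) - k + 1) - Real.log ((p : ℝ) - k) := by
          rw [← Real.log_div (by linarith) h0.ne']
          have := Real.one_sub_inv_le_log_of_pos (x := ((p : ℝ) - k + 1) / ((p : ℝ) - k)) (by positivity)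
          refine le_trans (le_of_eq ?_) this
          rw [inv_div]
          field_simp
          ring
        have hle : (Real.log ((p : ℝ) - k) - c n) / s n ≤ (Real.log ((p : ℝ) - k + 1) - c n) / s n := by
          gcongr
          linarith
        rw [hI]
        simp only
        rw [Real.volume_real_Ico_of_le hle, ← sub_div, sub_sub_sub_cancel_right]
        calc 1 / (2 * s n) * (1 / (p : ℝ)) = 1 / (2 * p) / s n := by field_simp
          _ ≤ 1 / ((p : ℝ) - k + 1) / s n := by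
            gcongr
          _ ≤ _ := by gcongr
    _ = volume.real (⋃ p ∈ T, I p) := by
        rw [measureReal_biUnion_finset hdisj (fun p _ => measurableSet_Ico)
          (fun p _ => by simp [hI, Real.volume_Ico])]
    _ ≤ _ := measureReal_mono hsub hfin

theorem t_LOW : S_LOW := by
  obtain ⟨C, hC0, hC⟩ := sum_inv_lower
  refine ⟨1 / 8, by norm_num, fun s c A B k hA => ?_⟩
  have hAB : 0 < B - A := sub_pos.2 hA.lt
  obtain ⟨n₀, hn₀⟩ := hA.ev
  have hgrow : ∀ j : ℕ, (j : ℝ) ≤ s (n₀ + j) := by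
    intro j
    induction j with
    | zero => simpa using (zero_le_one.trans (hn₀ n₀ le_rfl).1)
    | succ j ih =>
      have := (hn₀ (n₀ + j) (by omega)).2.1
      push_cast
      rw [← add_assoc]
      linarith
  have hs : Tendsto (fun n => s n * (B - A)) atTop atTop := by
    apply Tendsto.atTop_mul_const hAB
    rw [← tendsto_add_atTop_iff_nat n₀]
    refine tendsto_atTop_mono (fun n => ?_) tendsto_natCast_atTop_atTop
    rw [add_comm]
    exact hgrow n
  have e1 := hs.eventually_ge_atTop (2 * (2 * Real.log 2 + C) + 2)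
  have e2 := hA.top.eventually_ge_atTop (Real.log (2 * (|(k : ℝ)| + 2)))
  obtain ⟨n₁, hn₁⟩ := eventually_atTop.1 (e1.and e2)
  refine ⟨max n₀ n₁, fun n hn => ?_⟩
  obtain ⟨hs1, -, -, hsLA⟩ := hn₀ n (le_of_max_le_left hn)
  obtain ⟨hh, hk⟩ := hn₁ n (le_of_max_le_right hn)
  have hl2 : 0 < Real.log 2 := Real.log_pos (by norm_num)
  set y := Real.exp (Lg s c n A) with hy
  set z := Real.exp (Lg s c n B) with hz
  have hka : 0 ≤ |(k : ℝ)| := abs_nonneg _
  have hyk : 2 * (|(k : ℝ)| + 2) ≤ y := by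
    rw [hy, ← Real.log_le_iff_le_exp (by positivity)]
    exact hk
  have hLB : Lg s c n B = Lg s c n A + s n * (B - A) := by unfold Lg; ring
  have hLA0 : 0 < Lg s c n A := by linarith
  have hyz : 4 * y ≤ z := by
    have : Real.log 4 ≤ s n * (B - A) := by
      have : Real.log 4 = 2 * Real.log 2 := by
        rw [show (4 : ℝ) = 2 ^ 2 by norm_num, Real.log_pow]; norm_num
      linarith
    calc 4 * y = Real.exp (Real.log 4) * y := by rw [Real.exp_log (by norm_num)]
      _ ≤ Real.exp (s n * (B - A)) * y := by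
        gcongr
      _ = z := by rw [hy, ← Real.exp_add, hz, hLB, add_comm]
  have hy0 : 0 < y := Real.exp_pos _
  have hz0 : 0 < z := Real.exp_pos _
  set K : ℕ := k.natAbs with hK
  have hKr : (K : ℝ) = |(k : ℝ)| := by
    rw [hK, Nat.cast_natAbs, Int.cast_abs]
  set N1 : ℕ := ⌈y⌉₊ + K with hN1
  set N2 : ℕ := ⌊z⌋₊ - (K + 1) with hN2
  have hN1l : y + |(k : ℝ)| ≤ N1 := by
    rw [hN1]; push_cast; rw [hKr]; linarith [Nat.le_ceil y]
  have hN1u : (N1 : ℝ) ≤ 2 * y := by
    rw [hN1]; push_cast; rw [hKr]; linarith [Nat.ceil_lt_add_one hy0.le]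
  have hfl : K + 1 ≤ ⌊z⌋₊ := by
    apply Nat.le_floor
    push_cast
    rw [hKr]
    linarith
  have hN2e : (N2 : ℝ) = (⌊z⌋₊ : ℝ) - (K + 1) := by
    rw [hN2, Nat.cast_sub hfl]; push_cast; ring
  have hN2u : (N2 : ℝ) + |(k : ℝ)| + 1 ≤ z := by
    rw [hN2e, hKr]; linarith [Nat.floor_le hz0.le]
  have hN2l : z / 2 ≤ N2 := by
    rw [hN2e, hKr]; linarith [Nat.lt_floor_add_one z]
  have hN12 : N1 ≤ N2 := by
    have : (N1 : ℝ) ≤ N2 := by linarith
    exact_mod_cast this
  have hN1pos : 1 ≤ N1 := by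
    have : (1 : ℝ) ≤ N1 := by linarith
    exact_mod_cast this
  have hN2two : 2 ≤ N2 := by
    have : (2 : ℝ) ≤ N2 := by linarith
    exact_mod_cast this
  have hsum := hC N1 N2 hN1pos hN12 hN2two
  have hlogN1 : Real.log N1 ≤ Lg s c n A + Real.log 2 := by
    calc Real.log N1 ≤ Real.log (2 * y) := Real.log_le_log (by exact_mod_cast hN1pos) hN1u
      _ = Lg s c n A + Real.log 2 := by
        rw [Real.log_mul (by norm_num) hy0.ne', hy, Real.log_exp, add_comm]
  have hlogN2 : Lg s c n B - Real.log 2 ≤ Real.log N2 := by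
    calc Lg s c n B - Real.log 2 = Real.log (z / 2) := by
          rw [Real.log_div hz0.ne' (by norm_num), hz, Real.log_exp]
      _ ≤ _ := Real.log_le_log (by positivity) hN2l
  have hlogN2u : Real.log N2 ≤ 2 * Lg s c n A := by
    calc Real.log N2 ≤ Real.log z := Real.log_le_log (by positivity) (by linarith)
      _ = Lg s c n B := by rw [hz, Real.log_exp]
      _ ≤ _ := by rw [hLB]; linarith
  have hlogN2p : 0 < Real.log N2 := Real.log_pos (by exact_mod_cast hN2two)
  have hnum : s n * (B - A) / 2 ≤ Real.log N2 - Real.log N1 - C := by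
    rw [hLB] at hlogN2
    linarith
  have hsum2 : s n * (B - A) / 2 / (2 * Lg s c n A) ≤
      ∑ p ∈ (Finset.Ioc N1 N2).filter Nat.Prime, (1 : ℝ) / p := by
    refine le_trans ?_ hsum
    have : 0 ≤ s n * (B - A) / 2 := by positivity
    calc s n * (B - A) / 2 / (2 * Lg s c n A) ≤ s n * (B - A) / 2 / Real.log N2 := by gcongr
      _ ≤ _ := by gcongr
  have hmeas := meas_lower s c A B k n hs1 ((Finset.Ioc N1 N2).filter Nat.Prime) (by
    intro p hp
    simp only [mem_filter, mem_Ioc] at hp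
    have h1 : (N1 : ℝ) < p := by exact_mod_cast hp.1.1
    have h2 : (p : ℝ) ≤ N2 := by exact_mod_cast hp.1.2
    have hk1 := neg_abs_le (k : ℝ)
    have hk2 := le_abs_self (k : ℝ)
    refine ⟨hp.2, ?_, ?_, ?_⟩
    · linarith
    · linarith
    · linarith)
  refine le_trans ?_ hmeas
  have hs0 : 0 < s n := by linarith
  calc 1 / 8 * (B - A) / Lg s c n A = 1 / (2 * s n) * (s n * (B - A) / 2 / (2 * Lg s c n A)) := by
        field_simp
        ring
    _ ≤ _ := by gcongr

end Pool.Agent.Helper40W.NNP
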